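import Pool.Agent.R629.NF.Poly2
import Pool.Agent.R629.NF.Dich

/-!
# MP_6cbef8_nt: Hilbert newforms modulo abelian varieties

Let `f_i`, `i ∈ I`, be a countable family of Hilbert newforms over (totally real) number fields `F_i`
with Hecke eigenvalues `a_v` in the number fields `M_i`, and let `A_j`, `j ∈ J`, be a countable family of
abelian varieties over number fields `L_j` (for instance one in every isogeny class over every number
field), with the characteristic polynomials `Q_{j,v} ∈ ℚ[X]` of Frobenius.  Write `Λ_i(s)` for the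
product of the `L(f_i^τ, s)` over all embeddings `τ : M_i → ℂ`.  The functions `Λ_i(s)` and `L(A_j, s)`,
without finitely many Euler factors, have boundary values `l_i(t)`, `l_j(t)` at almost all points
`3/2 + it`.  If `A_{f_i}` exists, then `l_i(t)` is algebraic over the field `K(t)` generated by countably
many constants, the `l_j(t)`, `t` and the `p^{-it}`.  The theorem: the `l_i(t)` are algebraically
independent over `K(t)` for almost all `t` if and only if the `Λ_i(s)` satisfy no multiplicative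
relation modulo the `L(A_j, s)`; and a single `l_i(t)` is algebraic over `K(t)` if and only if a power
of `Λ_i(s)` is, up to finitely many Euler factors, a quotient of products of the `L(A_j, s)`.
-/

set_option autoImplicit false

namespace Pool.Agent.Results.MP_6cbef8_nt.NewformsModuloAbelianVarieties

open MeasureTheory NumberField IsDedekindDomain Polynomial
open Pool.Agent.R629.NF
open Pool.Agent.R629.SP
open Pool.Agent.TH339.MP (nm pr dg nm_eq dg_pos)

/-- The Hecke polynomial `X² - a_v X + q_v` over `M`. -/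
noncomputable def heckePoly {F M : Type} [Field F] [NumberField F] [Field M]
    (a : HeightOneSpectrum (𝓞 F) → M) (v : HeightOneSpectrum (𝓞 F)) : M[X] :=
  X ^ 2 - C (a v) * X + C (nm v : M)

/-- The characteristic polynomial of `Λ_f` at `v`: the product of the images of the Hecke polynomial
under all embeddings `τ : M → ℂ`. -/
noncomputable def lambdaPoly {F M : Type} [Field F] [NumberField F] [Field M] [NumberField M]
    (a : HeightOneSpectrum (𝓞 F) → M) (v : HeightOneSpectrum (𝓞 F)) : ℂ[X] :=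
  ∏ τ : M →+* ℂ, (heckePoly a v).map τ

lemma hecke_monic {F M : Type} [Field F] [NumberField F] [Field M]
    (a : HeightOneSpectrum (𝓞 F) → M) (v : HeightOneSpectrum (𝓞 F)) :
    (heckePoly a v).Monic ∧ (heckePoly a v).natDegree = 2 := by
  have h1 : heckePoly a v = C 1 * X ^ 2 + C (-a v) * X + C (nm v : M) := by
    unfold heckePoly
    rw [C_1, C_neg]
    ring
  have h2 : (heckePoly a v).natDegree = 2 := by
    rw [h1]
    exact natDegree_quadratic one_ne_zero
  refine ⟨?_, h2⟩
  rw [Monic, leadingCoeff, h2, h1]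
  simp

lemma lambda_sys {F M : Type} [Field F] [NumberField F] [Field M] [NumberField M]
    {a : HeightOneSpectrum (𝓞 F) → M} {S : Finset ℕ}
    (ha : ∀ (τ : M →+* ℂ) v, (pr v : ℕ) ∉ S → ∀ z ∈ ((heckePoly a v).map τ).roots,
      ‖z‖ = ((nm v : ℕ) : ℝ) ^ (1 / 2 : ℝ)) :
    IsSysLe S (Module.finrank ℚ M * 2) (1 / 2) (lambdaPoly a) := by
  classical
  intro v hv
  have hm : ∀ τ : M →+* ℂ, ((heckePoly a v).map τ).Monic := fun τ => (hecke_monic a v).1.map τ
  have hmon : (lambdaPoly a v).Monic := monic_prod_of_monic _ _ fun τ _ => hm τ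
  refine ⟨hmon, ?_, fun z hz => ?_⟩
  · unfold lambdaPoly
    rw [natDegree_prod_of_monic _ _ fun τ _ => hm τ, Finset.sum_congr rfl fun τ _ => by
      rw [(hecke_monic a v).1.natDegree_map τ, (hecke_monic a v).2], Finset.sum_const,
      Finset.card_univ, NumberField.Embeddings.card M ℂ, smul_eq_mul]
  · rw [mem_roots hmon.ne_zero] at hz
    unfold lambdaPoly at hz
    rw [IsRoot, eval_prod, Finset.prod_eq_zero_iff] at hz
    obtain ⟨τ, -, h1⟩ := hz
    have h2 := ha τ v hv z ((mem_roots (hm τ).ne_zero).2 h1)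
    refine ⟨?_, h2.le⟩
    rintro rfl
    rw [norm_zero] at h2
    have h3 : (0 : ℝ) < ((nm v : ℕ) : ℝ) := by
      rw [nm_eq]
      exact_mod_cast pow_pos (pr v).2.pos _
    exact (Real.rpow_pos_of_pos h3 _).ne h2

/-- **Newforms modulo abelian varieties.** -/
theorem result {I J : Type} [Countable I] [Countable J]
    (F M : I → Type) [∀ i, Field (F i)] [∀ i, NumberField (F i)] [∀ i, Field (M i)]
    [∀ i, NumberField (M i)] (SI : I → Finset ℕ) (hSI : ∀ i, Unram (F i) (SI i))
    (a : ∀ i, HeightOneSpectrum (𝓞 (F i)) → M i)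
    (ha : ∀ i (τ : M i →+* ℂ) v, (pr v : ℕ) ∉ SI i →
      ∀ z ∈ ((heckePoly (a i) v).map τ).roots, ‖z‖ = ((nm v : ℕ) : ℝ) ^ (1 / 2 : ℝ))
    (L : J → Type) [∀ j, Field (L j)] [∀ j, NumberField (L j)]
    (SJ : J → Finset ℕ) (hSJ : ∀ j, Unram (L j) (SJ j)) (g : J → ℕ)
    (Q : ∀ j, HeightOneSpectrum (𝓞 (L j)) → ℚ[X])
    (hQ : ∀ j, IsSysLe (SJ j) (2 * g j) (1 / 2) fun v => (Q j v).map (Rat.castHom ℂ)) :
    ((∀ i, ∃ l : ℝ → ℂ, IsEdgeOf (SI i) (Module.finrank ℚ (M i) * 2) (lambdaPoly (a i)) (1 / 2) l) ∧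
      ∀ j, ∃ l : ℝ → ℂ, IsEdgeOf (SJ j) (2 * g j) (fun v => (Q j v).map (Rat.castHom ℂ))
        (1 / 2) l) ∧
    ∀ (l : I → ℝ → ℂ) (lQ : J → ℝ → ℂ),
      (∀ i, IsEdgeOf (SI i) (Module.finrank ℚ (M i) * 2) (lambdaPoly (a i)) (1 / 2) (l i)) →
      (∀ j, IsEdgeOf (SJ j) (2 * g j) (fun v => (Q j v).map (Rat.castHom ℂ)) (1 / 2) (lQ j)) →
      [NoRelP (fun i => above (lambdaPoly (a i)))
          (fun j => above fun v => (Q j v).map (Rat.castHom ℂ)),
        ∀ k : Subfield ℂ, (k : Set ℂ).Countable → ∀ᵐ t : ℝ, AlgebraicIndependent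
          (IntermediateField.adjoin k (valSet (fun j => lQ j t) t)) fun i => l i t,
        ∀ k : Subfield ℂ, (k : Set ℂ).Countable → ¬ ∀ᵐ t : ℝ, ¬ AlgebraicIndependent
          (IntermediateField.adjoin k (valSet (fun j => lQ j t) t)) fun i => l i t].TFAE ∧
      ∀ i, (VirtP (above (lambdaPoly (a i)))
          (fun j => above fun v => (Q j v).map (Rat.castHom ℂ)) ↔ DependentOn (l i) lQ) ∧
        (DependentOn (l i) lQ ∨ IndependentOf (l i) lQ) :=
  ⟨⟨fun i => exists_edgeOf_le (hSI i) (lambda_sys (ha i)),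
    fun j => exists_edgeOf_le (hSJ j) (hQ j)⟩, fun _ _ hl hlQ =>
    ⟨matroidK hSI hSJ (fun i => lambda_sys (ha i)) hQ hl hlQ,
      fun i => singleK (hSI i) hSJ (lambda_sys (ha i)) hQ (hl i) hlQ⟩⟩

end Pool.Agent.Results.MP_6cbef8_nt.NewformsModuloAbelianVarieties
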